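import Pool.Agent.H595R2.PR.Core
import Pool.Agent.H595R2.PR.SIZ

/-!
# Primitive roots modulo primes `p` such that `p - 1` has no small prime factors besides `2`

`smallGroup p Y = ⟨1, …, Y⟩` has index less than `p ^ ε`, so only prime factors of `p - 1` below
`p ^ ε` can divide the index, and such a prime factor `l` does not divide it if there is an `l`-th
power nonresidue below `Y`. The prime `2` is dealt with by `2` if `p = 5` modulo `8`, and by a change
of the sign if `p = 3` modulo `4`.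
-/

set_option autoImplicit false

namespace Pool.Agent.TH668.PR

open Finset Pool.Agent.NPC Pool.Agent.H595R2.PR

/-- change the sign of the squares if `p = 3` modulo `4` -/
def fix (p x : ℕ) : ℕ :=
  if (decide (p % 4 = 3) && decide (pw p x ((p - 1) / 2) = md p 1)) = true then p - x else x

/-- the list -/
def fixed (A C p : ℕ) : List ℕ := (cands A C p).map (fix p)

theorem poly_fixed (A C : ℕ) : NPC.Poly (fun p : ℕ => fixed A C p) := by
  unfold fixed
  refine NPC.Poly.map (l := fun p : ℕ => cands A C p) (F := fun p x => fix p x) (poly_cands A C) ?_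
  have hp : NPC.Poly (fun q : ℕ × ℕ => q.1) := NPC.Poly.fst NPC.Poly.id
  have hx : NPC.Poly (fun q : ℕ × ℕ => q.2) := NPC.Poly.snd NPC.Poly.id
  have h1 : NPC.Poly (fun q : ℕ × ℕ => pw q.1 q.2 ((q.1 - 1) / 2)) :=
    Pool.Agent.NPC.H595POL.poly_pw hp hx (NPC.Poly.div (NPC.Poly.sub hp (NPC.Poly.const 1)) (NPC.Poly.const 2))
  have h2 : NPC.Poly (fun q : ℕ × ℕ => md q.1 1) :=
    Pool.Agent.NPC.H595POL.poly_md hp (NPC.Poly.const 1)
  unfold fix
  exact NPC.Poly.ite (p := fun q : ℕ × ℕ => (decide (q.1 % 4 = 3) &&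
      decide (pw q.1 q.2 ((q.1 - 1) / 2) = md q.1 1)) = true)
    (NPC.Poly.decide_bool (NPC.Poly.and (NPC.Poly.decide_eq (NPC.Poly.mod hp (NPC.Poly.const 4)) (NPC.Poly.const 3))
      (NPC.Poly.decide_eq h1 h2))) (NPC.Poly.sub hp hx) hx

theorem polyTime_fixed (A C : ℕ) : ∃ f : List Bool → List Bool, PolyTime f ∧
    ∀ p : ℕ, f (Nat.bits p) = bits (fixed A C p) := by
  have h : NPC.Poly (fun x : List Bool => fixed A C (valB x)) :=
    (poly_fixed A C).comp (NPC.Poly.valBits NPC.Poly.id)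
  exact ⟨_, polyTime_bits h, fun p => by simp only [valB_bits]⟩

section grp

variable {p : ℕ} [hp : Fact p.Prime]

theorem card_mul_index (Γ : Subgroup (ZMod p)ˣ) : Nat.card Γ * Γ.index = p - 1 := by
  rw [Subgroup.card_mul_index, Nat.card_eq_fintype_card, ZMod.card_units]

theorem dvd_index_lt (Γ : Subgroup (ZMod p)ˣ) (ε : ℝ) (h : (p : ℝ) ^ (1 - ε) ≤ Nat.card Γ)
    {l : ℕ} (hl : l ∣ Γ.index) : (l : ℝ) < (p : ℝ) ^ ε := by
  have hp0 : (0 : ℝ) < p := by exact_mod_cast hp.out.pos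
  have hi : 0 < Γ.index := Nat.pos_of_ne_zero Subgroup.index_ne_zero_of_finite
  have h1 : (l : ℝ) ≤ Γ.index := by exact_mod_cast Nat.le_of_dvd hi hl
  have h2 : (Nat.card Γ : ℝ) * Γ.index < p := by
    have := card_mul_index Γ
    have h3 : Nat.card Γ * Γ.index < p := by
      rw [this]; exact Nat.sub_lt hp.out.pos one_pos
    exact_mod_cast h3
  have hc : (0 : ℝ) < (p : ℝ) ^ (1 - ε) := Real.rpow_pos_of_pos hp0 _
  have h4 : (p : ℝ) ^ (1 - ε) * Γ.index < p :=
    lt_of_le_of_lt (mul_le_mul_of_nonneg_right h (Nat.cast_nonneg _)) h2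
  have h5 : (p : ℝ) ^ (1 - ε) * (p : ℝ) ^ ε = p := by
    rw [← Real.rpow_add hp0, sub_add_cancel, Real.rpow_one]
  have h6 : (p : ℝ) ^ (1 - ε) * Γ.index < (p : ℝ) ^ (1 - ε) * (p : ℝ) ^ ε := by rw [h5]; exact h4
  exact lt_of_le_of_lt h1 (lt_of_mul_lt_mul_left h6 hc.le)

theorem dvd_sub_one (Γ : Subgroup (ZMod p)ˣ) {l : ℕ} (hl : l ∣ Γ.index) : l ∣ p - 1 := by
  rw [← card_mul_index Γ]
  exact dvd_mul_of_dvd_right hl _

theorem pow_div (Γ : Subgroup (ZMod p)ˣ) {l : ℕ} (hl0 : 0 < l) (hl : l ∣ Γ.index)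
    {u : (ZMod p)ˣ} (hu : u ∈ Γ) : u ^ ((p - 1) / l) = 1 := by
  obtain ⟨m, hm⟩ := hl
  have h1 : (p - 1) / l = Nat.card Γ * m := by
    rw [← card_mul_index Γ, hm]
    rw [show Nat.card Γ * (l * m) = l * (Nat.card Γ * m) by ring, Nat.mul_div_cancel_left _ hl0]
  have h2 : u ^ Nat.card Γ = 1 := by
    have h := pow_card_eq_one' (x := (⟨u, hu⟩ : Γ))
    exact congrArg Subtype.val h
  rw [h1, pow_mul, h2, one_pow]

theorem mem_Gam {Y i : ℕ} (hi : 1 ≤ i) (hiY : i ≤ Y) (u : (ZMod p)ˣ) (hu : (u : ZMod p) = i) :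
    u ∈ Gam p Y := by
  apply Subgroup.subset_closure
  refine ⟨i - 1, by omega, ?_⟩
  rw [hu]
  congr 1
  omega

/-- no obstruction by `l` if there is a small `l`-th power nonresidue -/
theorem not_dvd_index {Y i l : ℕ} (hY : Y < p) (hi : 1 ≤ i) (hiY : i ≤ Y) (hl0 : 0 < l)
    (h : (i : ZMod p) ^ ((p - 1) / l) ≠ 1) : ¬ l ∣ (Gam p Y).index := by
  intro hl
  have hne : (i : ZMod p) ≠ 0 := by
    intro h0
    rw [ZMod.natCast_eq_zero_iff] at h0
    have := Nat.le_of_dvd (by omega) h0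
    omega
  have h1 := pow_div (Gam p Y) hl0 hl (mem_Gam hi hiY (Units.mk0 (i : ZMod p) hne) rfl)
  apply h
  have h2 := congrArg (Units.val) h1
  simpa using h2

theorem prim_of_top {u : (ZMod p)ˣ} (h : Subgroup.zpowers u = ⊤) : orderOf u = p - 1 := by
  rw [← Nat.card_zpowers, h, Subgroup.card_top, Nat.card_eq_fintype_card, ZMod.card_units]

theorem pw_iff (x e : ℕ) : pw p x e = md p 1 ↔ (x : ZMod p) ^ e = 1 := by
  rw [cor_inj (cor_pw_lt _ _) (cor_md_lt _), cor_pw, cor_md, Nat.cast_one]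

/-- After the change of the sign the generators of a group of index `1` (or `2`, if `p = 3` modulo
`4`) are primitive roots. -/
theorem prim_fix (h3 : 3 ≤ p) {x : ℕ} (hx : x < p) {u : (ZMod p)ˣ} (hu : (u : ZMod p) = x)
    (h : Subgroup.zpowers u = ⊤ ∨ (p % 4 = 3 ∧ (Subgroup.zpowers u).index = 2)) :
    orderOf ((fix p x : ℕ) : ZMod p) = p - 1 := by
  have key : (x : ZMod p) ^ ((p - 1) / 2) = 1 ↔ orderOf u ∣ (p - 1) / 2 := by
    rw [← hu, orderOf_dvd_iff_pow_eq_one, Units.ext_iff, Units.val_pow_eq_pow_val, Units.val_one]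
  unfold fix
  rcases h with h | ⟨h4, h⟩
  · have ho := prim_of_top h
    have hno : ¬ (x : ZMod p) ^ ((p - 1) / 2) = 1 := by
      rw [key, ho]
      intro hd
      have := Nat.le_of_dvd (by omega) hd
      omega
    rw [if_neg]
    · rw [← hu, orderOf_units, ho]
    · simp only [Bool.and_eq_true, decide_eq_true_eq, not_and, pw_iff]
      exact fun _ => hno
  · have hc := card_mul_index (Subgroup.zpowers u)
    rw [h, Nat.card_zpowers] at hc
    have ho : orderOf u = (p - 1) / 2 := by omega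
    have hyes : (x : ZMod p) ^ ((p - 1) / 2) = 1 := by rw [key, ho]
    rw [if_pos]
    · have hcast : ((p - x : ℕ) : ZMod p) = ((-u : (ZMod p)ˣ) : ZMod p) := by
        rw [Nat.cast_sub hx.le, ZMod.natCast_self, zero_sub, Units.val_neg, hu]
      rw [hcast, orderOf_units]
      have h1 : orderOf (-1 : (ZMod p)ˣ) = 2 := by
        rw [← orderOf_units, Units.val_neg, Units.val_one, orderOf_neg_one, ZMod.ringChar_zmod_n,
          if_neg (by omega)]
      have h2 : Nat.Coprime (orderOf (-1 : (ZMod p)ˣ)) (orderOf u) := by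
        rw [h1, ho, Nat.coprime_two_left]
        exact Nat.odd_iff.2 (by omega)
      have h5 := (Commute.all (-1 : (ZMod p)ˣ) u).orderOf_mul_eq_mul_orderOf_of_coprime h2
      rw [neg_one_mul] at h5
      rw [h5, h1, ho]
      omega
    · simp only [Bool.and_eq_true, decide_eq_true_eq, pw_iff]
      exact ⟨h4, hyes⟩

end grp

/-- The index of `⟨1, …, Y⟩`. -/
theorem index_cases {p : ℕ} [hp : Fact p.Prime] (ε : ℝ) (Y : ℕ) (hY : Y < p) (hY2 : 2 ≤ Y)
    (hbig : (p : ℝ) ^ (1 - ε) ≤ (Nat.card (Gam p Y) : ℝ)) (h3 : 3 ≤ p)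
    (h : (∀ l : ℕ, l.Prime → l ∣ p - 1 → (l : ℝ) < (p : ℝ) ^ ε →
        ∃ i : ℕ, 1 ≤ i ∧ i ≤ Y ∧ (i : ZMod p) ^ ((p - 1) / l) ≠ 1) ∨
      (p % 8 ≠ 1 ∧ ∀ l : ℕ, l.Prime → l ∣ p - 1 → l ≠ 2 → (p : ℝ) ^ ε ≤ l)) :
    Gam p Y = ⊤ ∨ (p % 4 = 3 ∧ (Gam p Y).index = 2) := by
  have hi0 : (Gam p Y).index ≠ 0 := Subgroup.index_ne_zero_of_finite
  rcases h with h | ⟨h8, h⟩
  · left
    rw [← Subgroup.index_eq_one]
    by_contra hne
    obtain ⟨l, hl, hd⟩ := Nat.exists_prime_and_dvd hne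
    obtain ⟨i, hi1, hi2, hi3⟩ := h l hl (dvd_sub_one _ hd) (dvd_index_lt _ ε hbig hd)
    exact not_dvd_index hY hi1 hi2 hl.pos hi3 hd
  · have hodd : p % 2 = 1 := by
      rcases hp.out.eq_two_or_odd with h' | h'
      · omega
      · exact h'
    have honly : ∀ l : ℕ, l.Prime → l ∣ (Gam p Y).index → l = 2 := by
      intro l hl hd
      by_contra hne
      have h1 := dvd_index_lt _ ε hbig hd
      have h2 := h l hl (dvd_sub_one _ hd) hne
      linarith
    obtain ⟨k, hk⟩ : ∃ k, (Gam p Y).index = 2 ^ k :=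
      ⟨_, Nat.eq_prime_pow_of_unique_prime_dvd hi0 (fun {l} hl hd => honly l hl hd)⟩
    by_cases h4 : p % 4 = 3
    · rcases k with _ | _ | k
      · left
        rw [← Subgroup.index_eq_one, hk, pow_zero]
      · right
        exact ⟨h4, by rw [hk, zero_add, pow_one]⟩
      · exfalso
        have h1 : 4 ∣ (Gam p Y).index := by
          rw [hk, pow_succ, pow_succ]
          exact ⟨2 ^ k, by ring⟩
        have h2 := dvd_sub_one _ h1
        omega
    · left
      rw [← Subgroup.index_eq_one]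
      by_contra hne
      have hd : 2 ∣ (Gam p Y).index := by
        rw [hk]
        refine dvd_pow_self 2 ?_
        rintro rfl
        exact hne (by rw [hk, pow_zero])
      refine not_dvd_index hY (i := 2) (by norm_num) hY2 (by norm_num) ?_ hd
      have h5 : p % 8 = 5 := by omega
      intro h1
      have h2 : ((2 : ℕ) : ZMod p) ≠ 0 := by
        intro h0
        rw [ZMod.natCast_eq_zero_iff] at h0
        have := Nat.le_of_dvd (by omega) h0
        omega
      have h6 : (p - 1) / 2 = p / 2 := by omega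
      rw [h6] at h1
      have h7 := (ZMod.euler_criterion p h2).2 h1
      have h8' : IsSquare (2 : ZMod p) := by simpa using h7
      rw [ZMod.exists_sq_eq_two_iff (by omega)] at h8'
      omega

end Pool.Agent.TH668.PR
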